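import Mathlib
import Pool.Agent.N943.RC.Stm

/-!
# Small sets span few labelled edges (for the project RC of helper943)
-/

set_option autoImplicit false

namespace Pool.Agent.N814.RC

open Finset Pool.Agent.R980 N943.RC
open scoped Classical

theorem bex_sum {E ι : Type} [Fintype E] [DecidableEq E] (p : ℝ) (s : Finset ι)
    (f : ι → (E → Bool) → ℝ) : bex p (fun x => ∑ i ∈ s, f i x) = ∑ i ∈ s, bex p (f i) := by
  unfold bex
  simp_rw [Finset.mul_sum]
  rw [Finset.sum_comm]

theorem bex_all {E : Type} [Fintype E] [DecidableEq E] (p : ℝ) (T : Finset E) :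
    bex p (fun x : E → Bool => if ∀ e ∈ T, x e = true then (1 : ℝ) else 0) = p ^ T.card := by
  have h1 := bex_prod (E := E) p (fun e b => if e ∈ T then (if b = true then 1 else 0) else 1)
  have h2 : (fun x : E → Bool => if ∀ e ∈ T, x e = true then (1 : ℝ) else 0) =
      fun x => ∏ e, (if e ∈ T then (if x e = true then (1 : ℝ) else 0) else 1) := by
    funext x
    by_cases h : ∀ e ∈ T, x e = true
    · rw [if_pos h]
      symm
      refine Finset.prod_eq_one fun e _ => ?_
      by_cases he : e ∈ T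
      · rw [if_pos he, if_pos (h e he)]
      · rw [if_neg he]
    · rw [if_neg h]
      push Not at h
      obtain ⟨e, he, hx⟩ := h
      symm
      refine Finset.prod_eq_zero (mem_univ e) ?_
      rw [if_pos he, if_neg hx]
  rw [h2, h1]
  have h3 : ∀ e : E, (p * (if e ∈ T then (if true = true then (1 : ℝ) else 0) else 1) +
      (1 - p) * (if e ∈ T then (if false = true then (1 : ℝ) else 0) else 1)) =
      if e ∈ T then p else 1 := by
    intro e
    by_cases he : e ∈ T
    · simp [he]
    · simp [he]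
  rw [Finset.prod_congr rfl fun e _ => h3 e]
  rw [Finset.prod_ite_mem, Finset.univ_inter, Finset.prod_const]

theorem choose_le (N k : ℕ) (hk : 0 < k) :
    (N.choose k : ℝ) ≤ (Real.exp 1 * N / k) ^ k := by
  have hk0 : (0 : ℝ) < k := by exact_mod_cast hk
  have hf : (0 : ℝ) < (k.factorial : ℝ) := by exact_mod_cast Nat.factorial_pos k
  have h1 : (N.choose k : ℝ) ≤ (N : ℝ) ^ k / (k.factorial : ℝ) := Nat.choose_le_pow_div k N
  have h2 : (k : ℝ) ^ k / (k.factorial : ℝ) ≤ Real.exp k :=
    Real.pow_div_factorial_le_exp (k : ℝ) hk0.le k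
  have h3 : Real.exp (k : ℝ) = Real.exp 1 ^ k := by
    rw [← Real.exp_nat_mul, mul_one]
  rw [h3] at h2
  refine h1.trans ?_
  have h4 : (N : ℝ) ^ k / (k.factorial : ℝ) = ((N : ℝ) / k) ^ k * ((k : ℝ) ^ k / (k.factorial : ℝ)) := by
    rw [div_pow]
    field_simp
  rw [h4]
  refine (mul_le_mul_of_nonneg_left h2 (by positivity)).trans (le_of_eq ?_)
  rw [← mul_pow]
  congr 1
  ring

/-- pairs inside `S` -/
noncomputable def PS (n R : ℕ) (S : Finset (Fin n)) : Finset (LE n R) :=
  univ.filter fun e : LE n R => ∀ a ∈ e.1.1, a ∈ S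

theorem card_PS (n R : ℕ) (S : Finset (Fin n)) : 2 * (PS n R S).card ≤ R * S.card ^ 2 := by
  have h1 : PS n R S = (univ.filter fun e : Edge n => ∀ a ∈ e.1, a ∈ S) ×ˢ (univ : Finset (Fin R)) := by
    ext e
    simp [PS]
  have h2 : (univ.filter fun e : Edge n => ∀ a ∈ e.1, a ∈ S).card ≤ S.card.choose 2 := by
    rw [← Sym2.card_image_offDiag S]
    refine Finset.card_le_card_of_injOn (fun e : Edge n => e.1) ?_
      (fun a _ b _ hab => Subtype.ext hab)
    intro e he
    rw [Finset.coe_filter, Set.mem_setOf_eq] at he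
    obtain ⟨e, hd⟩ := e
    induction e with
    | _ u v =>
    have h3 := he.2
    simp only [Finset.coe_image, Set.mem_image]
    refine ⟨(u, v), ?_, rfl⟩
    rw [Finset.mem_coe, Finset.mem_offDiag]
    refine ⟨h3 u (Sym2.mem_mk_left u v), h3 v (Sym2.mem_mk_right u v), ?_⟩
    intro huv
    have huv' : u = v := huv
    exact hd (by simp [huv'])
  have h3 : 2 * S.card.choose 2 ≤ S.card ^ 2 := by
    rw [Nat.choose_two_right, sq]
    have h4 := Nat.div_mul_le_self (S.card * (S.card - 1)) 2
    have h5 : S.card * (S.card - 1) ≤ S.card * S.card := Nat.mul_le_mul_left _ (Nat.sub_le _ _)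
    omega
  rw [h1, Finset.card_product, Finset.card_univ, Fintype.card_fin]
  calc 2 * ((univ.filter fun e : Edge n => ∀ a ∈ e.1, a ∈ S).card * R)
      = R * (2 * (univ.filter fun e : Edge n => ∀ a ∈ e.1, a ∈ S).card) := by ring
    _ ≤ R * (2 * S.card.choose 2) := Nat.mul_le_mul_left _ (Nat.mul_le_mul_left _ h2)
    _ ≤ R * S.card ^ 2 := Nat.mul_le_mul_left _ h3

/-- one set -/
theorem one_set {n R k : ℕ} {q : ℝ} (h0 : 0 ≤ q) (h1 : q ≤ 1) (S : Finset (Fin n)) :
    bex q (fun x : LE n R → Bool => if k ≤ lcount x S then (1 : ℝ) else 0) ≤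
      ((PS n R S).card.choose k : ℝ) * q ^ k := by
  have h2 : ∀ x : LE n R → Bool, (if k ≤ lcount x S then (1 : ℝ) else 0) ≤
      ∑ T ∈ (PS n R S).powersetCard k, if ∀ e ∈ T, x e = true then (1 : ℝ) else 0 := by
    intro x
    have hnn : ∀ T ∈ (PS n R S).powersetCard k,
        (0 : ℝ) ≤ if ∀ e ∈ T, x e = true then (1 : ℝ) else 0 := by
      intro T _
      split_ifs <;> norm_num
    split_ifs with hk
    · obtain ⟨T, hT1, hT2⟩ := Finset.exists_subset_card_eq hk
      have h3 : T ∈ (PS n R S).powersetCard k := by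
        rw [Finset.mem_powersetCard]
        refine ⟨?_, hT2⟩
        intro e he
        have h4 := hT1 he
        rw [Finset.mem_filter] at h4
        unfold PS
        rw [Finset.mem_filter]
        exact ⟨mem_univ _, h4.2.2⟩
      have h4 : (1 : ℝ) = if ∀ e ∈ T, x e = true then (1 : ℝ) else 0 := by
        rw [if_pos]
        intro e he
        have h5 := hT1 he
        rw [Finset.mem_filter] at h5
        exact h5.2.1
      calc (1 : ℝ) = if ∀ e ∈ T, x e = true then (1 : ℝ) else 0 := h4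
        _ ≤ _ := Finset.single_le_sum hnn h3
    · exact Finset.sum_nonneg hnn
  refine (bex_mono h0 h1 h2).trans (le_of_eq ?_)
  rw [bex_sum]
  have h3 : ∀ T ∈ (PS n R S).powersetCard k,
      bex q (fun x : LE n R → Bool => if ∀ e ∈ T, x e = true then (1 : ℝ) else 0) = q ^ k := by
    intro T hT
    rw [bex_all, (Finset.mem_powersetCard.mp hT).2]
  rw [Finset.sum_congr rfl h3, Finset.sum_const, Finset.card_powersetCard, nsmul_eq_mul]

theorem geo (N : ℕ) : ∑ m ∈ range N, (m : ℝ) * (1 / 2 : ℝ) ^ m ≤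
    2 - (N + 1) * 2 * (1 / 2 : ℝ) ^ N := by
  induction N with
  | zero => norm_num
  | succ N ih =>
    rw [Finset.sum_range_succ, pow_succ]
    push_cast
    have h := pow_pos (by norm_num : (0 : ℝ) < 1 / 2) N
    nlinarith

theorem exp_one_bounds : Real.exp 1 ≤ 2.7182818286 ∧ 2.7182818283 ≤ Real.exp 1 :=
  ⟨Real.exp_one_lt_d9.le, Real.exp_one_gt_d9.le⟩

theorem sparse : Sparse := by
  intro n ρ B hn hρ hB hBn hρB
  have hn0 : (0 : ℝ) < n := by exact_mod_cast hn
  have hρ0 : (0 : ℝ) < ρ := by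
    have : 0 < ρ := by omega
    exact_mod_cast this
  have hq0 : 0 ≤ B / n := by positivity
  have hq1 : B / n ≤ 1 := by rwa [div_le_one hn0]
  obtain ⟨he1, he2⟩ := exp_one_bounds
  set ee : ℝ := Real.exp 1 with hee
  have he0 : 0 < ee := Real.exp_pos 1
  set y : ℝ := 4 * ee * B / n with hy
  have hy0 : 0 < y := by positivity
  -- the function of the cardinality
  set G : ℕ → ℝ := fun m => if 1 ≤ m ∧ (m : ℝ) ≤ n / (24 * B) then (y * m) ^ (ρ * m) else 0 with hG
  have hG0 : ∀ m, 0 ≤ G m := by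
    intro m
    simp only [hG]
    split_ifs
    · positivity
    · exact le_refl _
  -- union bound
  have h1 : ∀ x : LE n (8 * ρ) → Bool, (if ∃ S : Finset (Fin n), S.Nonempty ∧
      (S.card : ℝ) ≤ n / (24 * B) ∧ 8 * ρ * S.card ≤ 8 * lcount x S then (1 : ℝ) else 0) ≤
      ∑ S : Finset (Fin n), if 1 ≤ S.card ∧ (S.card : ℝ) ≤ n / (24 * B) then
        (if ρ * S.card ≤ lcount x S then (1 : ℝ) else 0) else 0 := by
    intro x
    have hnn : ∀ S ∈ (univ : Finset (Finset (Fin n))),
        (0 : ℝ) ≤ if 1 ≤ S.card ∧ (S.card : ℝ) ≤ n / (24 * B) then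
        (if ρ * S.card ≤ lcount x S then (1 : ℝ) else 0) else 0 := by
      intro S _
      split_ifs <;> norm_num
    split_ifs with h
    · obtain ⟨S, hS1, hS2, hS3⟩ := h
      have h4 : (1 : ℝ) = if 1 ≤ S.card ∧ (S.card : ℝ) ≤ n / (24 * B) then
        (if ρ * S.card ≤ lcount x S then (1 : ℝ) else 0) else 0 := by
        rw [if_pos ⟨Finset.card_pos.mpr hS1, hS2⟩, if_pos]
        rw [mul_assoc] at hS3
        omega
      calc (1 : ℝ) = _ := h4
        _ ≤ _ := Finset.single_le_sum hnn (mem_univ S)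
    · exact Finset.sum_nonneg hnn
  have h2 : ∀ S : Finset (Fin n), bex (B / n) (fun x : LE n (8 * ρ) → Bool =>
      if 1 ≤ S.card ∧ (S.card : ℝ) ≤ n / (24 * B) then
        (if ρ * S.card ≤ lcount x S then (1 : ℝ) else 0) else 0) ≤ G S.card := by
    intro S
    simp only [hG]
    split_ifs with h
    · refine (one_set hq0 hq1 S).trans ?_
      have hm0 : (0 : ℝ) < S.card := by exact_mod_cast h.1
      have hk : 0 < ρ * S.card := Nat.mul_pos (by omega) h.1
      have h3 := choose_le (PS n (8 * ρ) S).card (ρ * S.card) hk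
      have h4 : ((PS n (8 * ρ) S).card : ℝ) ≤ 4 * ρ * (S.card : ℝ) ^ 2 := by
        have h5 := card_PS n (8 * ρ) S
        have h6 : ((2 * (PS n (8 * ρ) S).card : ℕ) : ℝ) ≤ ((8 * ρ * S.card ^ 2 : ℕ) : ℝ) := by
          exact_mod_cast h5
        push_cast at h6
        linarith
      have h5 : ee * ((PS n (8 * ρ) S).card : ℝ) / ((ρ * S.card : ℕ) : ℝ) ≤
          4 * ee * S.card := by
        push_cast
        rw [div_le_iff₀ (by positivity)]
        have h6 := mul_le_mul_of_nonneg_left h4 he0.le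
        refine h6.trans (le_of_eq ?_)
        ring
      have h6 : (((PS n (8 * ρ) S).card.choose (ρ * S.card) : ℕ) : ℝ) ≤
          (4 * ee * S.card) ^ (ρ * S.card) :=
        h3.trans (pow_le_pow_left₀ (by positivity) h5 _)
      refine (mul_le_mul_of_nonneg_right h6 (by positivity)).trans (le_of_eq ?_)
      rw [← mul_pow]
      congr 1
      simp only [hy]
      ring
    · rw [bex_const]
  have h3 : bex (B / n) (fun x : LE n (8 * ρ) → Bool => if ∃ S : Finset (Fin n), S.Nonempty ∧
      (S.card : ℝ) ≤ n / (24 * B) ∧ 8 * ρ * S.card ≤ 8 * lcount x S then (1 : ℝ) else 0) ≤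
      ∑ S : Finset (Fin n), G S.card := by
    refine (bex_mono hq0 hq1 h1).trans ?_
    rw [bex_sum]
    exact Finset.sum_le_sum fun S _ => h2 S
  refine h3.trans ?_
  have h4 : ∑ S : Finset (Fin n), G S.card = ∑ m ∈ range (n + 1), (n.choose m : ℝ) * G m := by
    have h5 : ∑ S ∈ (univ : Finset (Fin n)).powerset, G S.card =
        ∑ m ∈ range ((univ : Finset (Fin n)).card + 1),
          ((univ : Finset (Fin n)).card).choose m • G m := Finset.sum_powerset_apply_card G
    rw [Finset.powerset_univ, Finset.card_univ, Fintype.card_fin] at h5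
    rw [h5]
    exact Finset.sum_congr rfl fun m _ => nsmul_eq_mul _ _
  rw [h4]
  -- each term
  have h5 : ∀ m ∈ range (n + 1), (n.choose m : ℝ) * G m ≤ 2 * y * (m * (1 / 2 : ℝ) ^ m) := by
    intro m _
    simp only [hG]
    split_ifs with h
    · obtain ⟨hm1, hm2⟩ := h
      have hm0 : (0 : ℝ) < m := by exact_mod_cast hm1
      have hym : y * m ≤ 1 / 2 := by
        rw [le_div_iff₀ (by positivity)] at hm2
        have h6 : y * m * n = 4 * ee * B * m := by
          simp only [hy]
          field_simp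
        have h7 : y * m * n ≤ 1 / 2 * n := by
          rw [h6]
          nlinarith
        exact le_of_mul_le_mul_right h7 hn0
      have hym0 : 0 < y * m := by positivity
      have h6 := choose_le n m hm1
      -- the bracket
      have h7 : ee * n / m * (y * m) ^ ρ ≤ y * m := by
        obtain ⟨r, hr⟩ : ∃ r, ρ = r + 2 := ⟨ρ - 2, by omega⟩
        subst hr
        have h8 : (y * m) ^ (r + 2) = (y * m) * ((y * m) * (y * m) ^ r) := by ring
        have h9 : ee * n / m * (y * m) = 4 * ee ^ 2 * B := by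
          simp only [hy]
          field_simp
        have h10 : (y * m) ^ r ≤ (1 / 2) ^ r := pow_le_pow_left₀ hym0.le hym r
        have h11 : (1 / 2 : ℝ) ^ r * 2 ^ (r + 2) = 4 := by
          rw [pow_add, ← mul_assoc, ← mul_pow]
          norm_num
        have h12 : 4 * ee ^ 2 * B * (1 / 2 : ℝ) ^ r ≤ 1 := by
          have h13 : 128 * B * (1 / 2 : ℝ) ^ r ≤ 4 := by
            rw [← h11, mul_comm ((1 / 2 : ℝ) ^ r)]
            exact mul_le_mul_of_nonneg_right hρB (by positivity)
          have h14 : ee ^ 2 ≤ 8 := by nlinarith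
          have h15 : 0 < B * (1 / 2 : ℝ) ^ r := by positivity
          nlinarith
        calc ee * n / m * (y * m) ^ (r + 2)
            = (ee * n / m * (y * m)) * (y * m) ^ r * (y * m) := by rw [h8]; ring
          _ = 4 * ee ^ 2 * B * (y * m) ^ r * (y * m) := by rw [h9]
          _ ≤ 4 * ee ^ 2 * B * (1 / 2 : ℝ) ^ r * (y * m) := by gcongr
          _ ≤ 1 * (y * m) := by gcongr
          _ = y * m := one_mul _
      have h8 : (n.choose m : ℝ) * (y * m) ^ (ρ * m) ≤ (y * m) ^ m := by
        rw [pow_mul]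
        calc (n.choose m : ℝ) * ((y * m) ^ ρ) ^ m ≤ (ee * n / m) ^ m * ((y * m) ^ ρ) ^ m := by
              gcongr
          _ = (ee * n / m * (y * m) ^ ρ) ^ m := (mul_pow _ _ _).symm
          _ ≤ (y * m) ^ m := pow_le_pow_left₀ (by positivity) h7 _
      refine h8.trans ?_
      obtain ⟨l, hl⟩ : ∃ l, m = l + 1 := ⟨m - 1, by omega⟩
      have h9 : (y * m) ^ m = (y * m) ^ l * (y * m) := by
        conv_lhs => rw [hl]
        rw [pow_succ, ← hl]
      rw [h9]
      have h10 : (y * m) ^ l ≤ (1 / 2) ^ l := pow_le_pow_left₀ hym0.le hym l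
      calc (y * m) ^ l * (y * m) ≤ (1 / 2 : ℝ) ^ l * (y * m) := by gcongr
        _ = 2 * y * (m * (1 / 2 : ℝ) ^ m) := by
          have h11 : (1 / 2 : ℝ) ^ m = (1 / 2 : ℝ) ^ l * (1 / 2) := by
            rw [hl, pow_succ]
          rw [h11]
          ring
    · rw [mul_zero]
      positivity
  refine (Finset.sum_le_sum h5).trans ?_
  rw [← Finset.mul_sum]
  have h6 := geo (n + 1)
  have h7 : ∑ m ∈ range (n + 1), (m : ℝ) * (1 / 2 : ℝ) ^ m ≤ 2 := by
    refine h6.trans ?_
    have : (0 : ℝ) ≤ (((n + 1 : ℕ) : ℝ) + 1) * 2 * (1 / 2 : ℝ) ^ (n + 1) := by positivity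
    linarith
  calc 2 * y * ∑ m ∈ range (n + 1), (m : ℝ) * (1 / 2 : ℝ) ^ m ≤ 2 * y * 2 := by gcongr
    _ = 16 * ee * B / n := by
      simp only [hy]
      ring
    _ ≤ 44 * B / n := by
      refine div_le_div_of_nonneg_right ?_ hn0.le
      nlinarith

end Pool.Agent.N814.RC
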