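import Mathlib
import Pool.Agent.N943.RC.Stm

/-!
# Almost all pairs kept implies isometric on almost all points (for the project RC of helper943)
-/

set_option autoImplicit false

namespace Pool.Agent.N814.RC

open Finset Pool.Agent.R980 N943.RC
open scoped Classical

theorem indep_of {d : ℕ} {ι : Type} (P : ι → Pt d) :
    AffineIndependent ℝ
      (fun i : {i : ι // P i ∉ affineSpan ℝ (P '' {j | j ≠ i})} => P i) := by
  rw [affineIndependent_iff]
  intro s w hw hp e he
  by_contra hne
  apply e.2
  set c : {i : ι // P i ∉ affineSpan ℝ (P '' {j | j ≠ i})} → ℝ := fun j => -w j / w e with hc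
  have h1 : w e + ∑ j ∈ s.erase e, w j = 0 := by rw [Finset.add_sum_erase s w he, hw]
  have h2 : w e • P e + ∑ j ∈ s.erase e, w j • P j = 0 := by
    rw [Finset.add_sum_erase s (fun j => w j • P j) he, hp]
  have h3 : ∑ j ∈ s.erase e, c j = 1 := by
    simp only [hc]
    rw [← Finset.sum_div, Finset.sum_neg_distrib, div_eq_one_iff_eq hne]
    linarith
  have h4 : ∑ j ∈ s.erase e, c j • P j = P e := by
    have h5 : w e • ∑ j ∈ s.erase e, c j • P j = w e • P e := by
      rw [Finset.smul_sum]
      have h6 : ∀ j ∈ s.erase e, w e • c j • P j = -(w j • P j) := by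
        intro j _
        rw [smul_smul, ← neg_smul]
        congr 1
        simp only [hc]
        field_simp
      rw [Finset.sum_congr rfl h6, Finset.sum_neg_distrib]
      exact (eq_neg_of_add_eq_zero_left h2).symm
    exact smul_right_injective _ hne h5
  have h5 := affineCombination_mem_affineSpan_image (k := ℝ) (s := s.erase e) (w := c) h3
    (s' := {j | j ≠ e}) (fun i hi hi' => by
      exfalso
      apply hi'
      exact Finset.ne_of_mem_erase hi) (fun i => P i)
  rw [Finset.affineCombination_eq_linear_combination _ _ _ h3, h4] at h5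
  refine affineSpan_mono ℝ ?_ h5
  rintro _ ⟨j, hj, rfl⟩
  exact ⟨j.1, fun h => hj (Subtype.ext h), rfl⟩

theorem few_bad {d : ℕ} {ι : Type} [Fintype ι] (P : ι → Pt d) :
    (univ.filter fun i : ι => P i ∉ affineSpan ℝ (P '' {j | j ≠ i})).card ≤ d + 1 := by
  have h2 := (indep_of P).card_le_finrank_succ
  have h3 : Module.finrank ℝ (vectorSpan ℝ (Set.range
      (fun i : {i : ι // P i ∉ affineSpan ℝ (P '' {j | j ≠ i})} => P i))) ≤ d := by
    refine (Submodule.finrank_le _).trans ?_
    rw [finrank_euclideanSpace_fin]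
  rw [← Fintype.card_subtype]
  exact h2.trans (Nat.succ_le_succ h3)

/-- the `i`-th point of the tuple is not spanned by the others -/
def B1 {n d k : ℕ} (v : Fin n → Pt d) (t : Fin (k + 1) → Fin n) (i : Fin (k + 1)) : Prop :=
  v (t i) ∉ affineSpan ℝ ((fun j => v (t j)) '' {j | j ≠ i})

theorem B1_swap {n d k : ℕ} (v : Fin n → Pt d) (t : Fin (k + 1) → Fin n) (i : Fin (k + 1)) :
    B1 v (t ∘ Equiv.swap 0 i) 0 ↔ B1 v t i := by
  unfold B1
  have h1 : (fun j => v ((t ∘ Equiv.swap 0 i) j)) '' {j | j ≠ 0} =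
      (fun j => v (t j)) '' {j | j ≠ i} := by
    ext z
    constructor
    · rintro ⟨j, hj, rfl⟩
      refine ⟨Equiv.swap 0 i j, ?_, rfl⟩
      intro h
      apply hj
      have h2 := congrArg (Equiv.swap 0 i) h
      rwa [Equiv.swap_apply_self, Equiv.swap_apply_right] at h2
    · rintro ⟨j, hj, rfl⟩
      refine ⟨Equiv.swap 0 i j, ?_, ?_⟩
      · intro h
        apply hj
        have h2 := congrArg (Equiv.swap 0 i) h
        rwa [Equiv.swap_apply_self, Equiv.swap_apply_left] at h2
      · simp
  rw [h1]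
  simp

theorem card_B1 {n d k : ℕ} (v : Fin n → Pt d) :
    (k + 1) * (univ.filter fun t : Fin (k + 1) → Fin n => B1 v t 0).card ≤
      (d + 1) * n ^ (k + 1) := by
  have h1 : ∀ i : Fin (k + 1), (univ.filter fun t : Fin (k + 1) → Fin n => B1 v t i).card =
      (univ.filter fun t : Fin (k + 1) → Fin n => B1 v t 0).card := by
    intro i
    refine Finset.card_bij' (fun t _ => t ∘ Equiv.swap 0 i) (fun t _ => t ∘ Equiv.swap 0 i)
      ?_ ?_ ?_ ?_
    · intro t ht
      rw [mem_filter] at ht ⊢
      exact ⟨mem_univ _, (B1_swap v t i).mpr ht.2⟩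
    · intro t ht
      rw [mem_filter] at ht ⊢
      refine ⟨mem_univ _, ?_⟩
      rw [← B1_swap]
      have h2 : (t ∘ Equiv.swap 0 i) ∘ Equiv.swap 0 i = t := by
        funext j
        simp
      rw [h2]
      exact ht.2
    · intro t _
      funext j
      simp
    · intro t _
      funext j
      simp
  have h2 : ∑ i : Fin (k + 1), (univ.filter fun t : Fin (k + 1) → Fin n => B1 v t i).card =
      (k + 1) * (univ.filter fun t : Fin (k + 1) → Fin n => B1 v t 0).card := by
    rw [Finset.sum_congr rfl fun i _ => h1 i, Finset.sum_const, card_univ, Fintype.card_fin,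
      smul_eq_mul]
  rw [← h2]
  have h3 : ∑ i : Fin (k + 1), (univ.filter fun t : Fin (k + 1) → Fin n => B1 v t i).card =
      ∑ t : Fin (k + 1) → Fin n, (univ.filter fun i => B1 v t i).card := by
    simp_rw [Finset.card_filter]
    rw [Finset.sum_comm]
  rw [h3]
  have h4 : ∀ t : Fin (k + 1) → Fin n, (univ.filter fun i => B1 v t i).card ≤ d + 1 := by
    intro t
    refine (Finset.card_le_card ?_).trans (few_bad fun j => v (t j))
    intro i hi
    rw [mem_filter] at hi ⊢
    exact hi
  refine (Finset.sum_le_sum fun t _ => h4 t).trans ?_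
  rw [Finset.sum_const, card_univ, Fintype.card_fun, Fintype.card_fin, Fintype.card_fin,
    smul_eq_mul, mul_comm]

/-- the pair is kept -/
def KK {n d : ℕ} (v x : Fin n → Pt d) (a b : Fin n) : Prop := dist (x a) (x b) = dist (v a) (v b)

theorem card_pairs {n d : ℕ} (v x : Fin n → Pt d) :
    (univ.filter fun c : Fin n × Fin n => ¬ KK v x c.1 c.2).card ≤
      2 * (univ.filter fun e : Edge n => ¬ Pres v x e.1).card := by
  have hd : ∀ a b : Fin n, ¬ KK v x a b → ¬ (s(a, b) : Sym2 (Fin n)).IsDiag := by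
    intro a b h hab
    rw [Sym2.mk_isDiag_iff] at hab
    subst hab
    exact h (by simp [KK])
  have h1 := Finset.card_le_mul_card_image_of_maps_to
    (f := fun c : Fin n × Fin n => (s(c.1, c.2) : Sym2 (Fin n)))
    (s := univ.filter fun c : Fin n × Fin n => ¬ KK v x c.1 c.2)
    (t := (univ.filter fun e : Edge n => ¬ Pres v x e.1).image fun e => e.1) ?_ 2 ?_
  · refine h1.trans ?_
    exact Nat.mul_le_mul_left _ Finset.card_image_le
  · intro c hc
    rw [mem_filter] at hc
    rw [mem_image]
    refine ⟨⟨s(c.1, c.2), hd _ _ hc.2⟩, ?_, rfl⟩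
    rw [mem_filter]
    refine ⟨mem_univ _, ?_⟩
    intro h
    exact hc.2 (h c.1 c.2 rfl)
  · intro e _
    induction e with
    | _ a b =>
    have h2 : (univ.filter fun c : Fin n × Fin n => ¬ KK v x c.1 c.2).filter
        (fun c => (s(c.1, c.2) : Sym2 (Fin n)) = s(a, b)) ⊆ {(a, b), (b, a)} := by
      intro c hc
      rw [mem_filter] at hc
      rw [mem_insert, mem_singleton]
      rcases Sym2.eq_iff.mp hc.2 with ⟨h3, h4⟩ | ⟨h3, h4⟩
      · left
        exact Prod.ext h3 h4
      · right
        exact Prod.ext h3 h4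
    exact (Finset.card_le_card h2).trans Finset.card_le_two

theorem card_fiber {n k : ℕ} (i j : Fin (k + 1)) (hij : i ≠ j) (a b : Fin n) :
    (univ.filter fun t : Fin (k + 1) → Fin n => t i = a ∧ t j = b).card ≤ n ^ (k - 1) := by
  have h1 : (univ.filter fun t : Fin (k + 1) → Fin n => t i = a ∧ t j = b) ⊆
      Fintype.piFinset fun l : Fin (k + 1) =>
        if l = i then ({a} : Finset (Fin n)) else if l = j then {b} else univ := by
    intro t ht
    rw [mem_filter] at ht
    rw [Fintype.mem_piFinset]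
    intro l
    split_ifs with h2 h3
    · rw [mem_singleton, h2]
      exact ht.2.1
    · rw [mem_singleton, h3]
      exact ht.2.2
    · exact mem_univ _
  refine (Finset.card_le_card h1).trans ?_
  rw [Fintype.card_piFinset]
  have h2 : ∀ l : Fin (k + 1), (if l = i then ({a} : Finset (Fin n)) else if l = j then {b}
      else univ).card = if l ∈ ({i, j} : Finset (Fin (k + 1))) then 1 else n := by
    intro l
    by_cases h3 : l = i
    · simp [h3]
    · by_cases h4 : l = j
      · rw [if_neg h3, if_pos h4, if_pos (by simp [h4]), Finset.card_singleton]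
      · simp [h3, h4]
  rw [Finset.prod_congr rfl fun l _ => h2 l, Finset.prod_ite, Finset.prod_const_one, one_mul,
    Finset.prod_const]
  have h3 : (univ.filter fun l : Fin (k + 1) => l ∉ ({i, j} : Finset (Fin (k + 1)))).card =
      k - 1 := by
    have h4 : (univ.filter fun l : Fin (k + 1) => l ∉ ({i, j} : Finset (Fin (k + 1)))) =
        ({i, j} : Finset (Fin (k + 1)))ᶜ := by
      ext l
      simp
    rw [h4, Finset.card_compl, Fintype.card_fin, Finset.card_pair hij]
    omega
  rw [h3]

theorem card_tuple_pair {n d k : ℕ} (v x : Fin n → Pt d) (i j : Fin (k + 1)) :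
    (univ.filter fun t : Fin (k + 1) → Fin n => ¬ KK v x (t i) (t j)).card ≤
      n ^ (k - 1) * (2 * (univ.filter fun e : Edge n => ¬ Pres v x e.1).card) := by
  by_cases hij : i = j
  · subst hij
    have h1 : (univ.filter fun t : Fin (k + 1) → Fin n => ¬ KK v x (t i) (t i)) = ∅ := by
      rw [Finset.filter_eq_empty_iff]
      intro t _ h
      exact h (by simp [KK])
    rw [h1, Finset.card_empty]
    exact Nat.zero_le _
  · have h1 := Finset.card_le_mul_card_image_of_maps_to
      (f := fun t : Fin (k + 1) → Fin n => (t i, t j))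
      (s := univ.filter fun t : Fin (k + 1) → Fin n => ¬ KK v x (t i) (t j))
      (t := univ.filter fun c : Fin n × Fin n => ¬ KK v x c.1 c.2) ?_ (n ^ (k - 1)) ?_
    · exact h1.trans (Nat.mul_le_mul_left _ (card_pairs v x))
    · intro t ht
      rw [mem_filter] at ht ⊢
      exact ⟨mem_univ _, ht.2⟩
    · intro c _
      refine le_trans (Finset.card_le_card ?_) (card_fiber i j hij c.1 c.2)
      intro t ht
      rw [mem_filter] at ht ⊢
      exact ⟨mem_univ _, congrArg Prod.fst ht.2, congrArg Prod.snd ht.2⟩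

/-- bad tuples -/
def BT {n d k : ℕ} (v x : Fin n → Pt d) (t : Fin (k + 1) → Fin n) : Prop :=
  B1 v t 0 ∨ ∃ i j, ¬ KK v x (t i) (t j)

theorem card_BT {n d k : ℕ} (v x : Fin n → Pt d) :
    (univ.filter fun t : Fin (k + 1) → Fin n => BT v x t).card ≤
      (univ.filter fun t : Fin (k + 1) → Fin n => B1 v t 0).card + (k + 1) ^ 2 *
        (n ^ (k - 1) * (2 * (univ.filter fun e : Edge n => ¬ Pres v x e.1).card)) := by
  have h1 : (univ.filter fun t : Fin (k + 1) → Fin n => BT v x t) ⊆
      (univ.filter fun t : Fin (k + 1) → Fin n => B1 v t 0) ∪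
        (univ : Finset (Fin (k + 1) × Fin (k + 1))).biUnion fun c =>
          univ.filter fun t : Fin (k + 1) → Fin n => ¬ KK v x (t c.1) (t c.2) := by
    intro t ht
    rw [mem_filter] at ht
    rw [mem_union, mem_filter, mem_biUnion]
    rcases ht.2 with h | ⟨i, j, h⟩
    · left
      exact ⟨mem_univ _, h⟩
    · right
      refine ⟨(i, j), mem_univ _, ?_⟩
      rw [mem_filter]
      exact ⟨mem_univ _, h⟩
  refine (Finset.card_le_card h1).trans ((Finset.card_union_le _ _).trans ?_)
  refine Nat.add_le_add_left ?_ _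
  refine (Finset.card_biUnion_le_card_mul _ _ _ fun c _ => card_tuple_pair v x c.1 c.2).trans ?_
  rw [card_univ, Fintype.card_prod, Fintype.card_fin, sq]

theorem struct (h : Extend) : Struct := by
  intro d ε' hε'
  obtain ⟨k, hk⟩ := exists_nat_gt (2 * ((d : ℝ) + 1) / ε')
  have hk1 : 1 ≤ k := by
    by_contra hcon
    have h0 : k = 0 := by omega
    rw [h0, Nat.cast_zero] at hk
    have : 0 < 2 * ((d : ℝ) + 1) / ε' := by positivity
    linarith
  have hk0 : (0 : ℝ) < k := by exact_mod_cast hk1
  refine ⟨ε' / (4 * ((k : ℝ) + 1) ^ 2), by positivity, ?_⟩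
  intro n v x hNP
  rcases Nat.eq_zero_or_pos n with hn | hn
  · subst hn
    refine ⟨∅, ?_, ?_⟩
    · intro a ha
      exact absurd ha (Finset.notMem_empty a)
    · simp
  have hn0 : (0 : ℝ) < n := by exact_mod_cast hn
  -- the number of bad tuples
  set M : ℕ := (univ.filter fun e : Edge n => ¬ Pres v x e.1).card with hM
  have h1 : ((univ.filter fun t : Fin (k + 1) → Fin n => BT v x t).card : ℝ) ≤
      ε' * (n : ℝ) ^ (k + 1) := by
    have h2 := card_BT (k := k) v x
    have h3 := card_B1 (k := k) v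
    have h2' : ((univ.filter fun t : Fin (k + 1) → Fin n => BT v x t).card : ℝ) ≤
        (univ.filter fun t : Fin (k + 1) → Fin n => B1 v t 0).card + ((k : ℝ) + 1) ^ 2 *
          ((n : ℝ) ^ (k - 1) * (2 * M)) := by exact_mod_cast h2
    have h3' : ((k : ℝ) + 1) * (univ.filter fun t : Fin (k + 1) → Fin n => B1 v t 0).card ≤
        ((d : ℝ) + 1) * (n : ℝ) ^ (k + 1) := by exact_mod_cast h3
    have h4 : ((univ.filter fun t : Fin (k + 1) → Fin n => B1 v t 0).card : ℝ) ≤
        ε' / 2 * (n : ℝ) ^ (k + 1) := by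
      have h5 : (d : ℝ) + 1 ≤ ε' / 2 * (k + 1) := by
        rw [div_lt_iff₀ hε'] at hk
        nlinarith
      have h6 : ((k : ℝ) + 1) * (univ.filter fun t : Fin (k + 1) → Fin n => B1 v t 0).card ≤
          ((k : ℝ) + 1) * (ε' / 2 * (n : ℝ) ^ (k + 1)) := by
        refine h3'.trans ?_
        have h7 := mul_le_mul_of_nonneg_right h5 (by positivity : (0 : ℝ) ≤ (n : ℝ) ^ (k + 1))
        refine h7.trans (le_of_eq ?_)
        ring
      exact le_of_mul_le_mul_left h6 (by positivity)
    have h5 : ((k : ℝ) + 1) ^ 2 * ((n : ℝ) ^ (k - 1) * (2 * M)) ≤ ε' / 2 * (n : ℝ) ^ (k + 1) := by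
      have h6 : (n : ℝ) ^ (k + 1) = (n : ℝ) ^ (k - 1) * (n : ℝ) ^ 2 := by
        rw [← pow_add]
        congr 1
        omega
      rw [h6]
      have h7 : ((k : ℝ) + 1) ^ 2 * (2 * (M : ℝ)) ≤ ε' / 2 * (n : ℝ) ^ 2 := by
        have h8 := mul_le_mul_of_nonneg_left hNP (by positivity : (0 : ℝ) ≤ 2 * ((k : ℝ) + 1) ^ 2)
        refine le_trans (le_of_eq (by ring)) (h8.trans (le_of_eq ?_))
        field_simp
        ring
      have h8 := mul_le_mul_of_nonneg_left h7 (by positivity : (0 : ℝ) ≤ (n : ℝ) ^ (k - 1))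
      refine le_trans (le_of_eq (by ring)) (h8.trans (le_of_eq (by ring)))
    linarith
  -- averaging
  have h2 : ∑ s : Fin k → Fin n, ((univ.filter fun a : Fin n => BT v x (Fin.cons a s)).card : ℝ) =
      ((univ.filter fun t : Fin (k + 1) → Fin n => BT v x t).card : ℝ) := by
    have h3 : ∑ s : Fin k → Fin n, (univ.filter fun a : Fin n => BT v x (Fin.cons a s)).card =
      (univ.filter fun t : Fin (k + 1) → Fin n => BT v x t).card := by
      simp_rw [Finset.card_filter]
      rw [← (Fin.consEquiv fun _ : Fin (k + 1) => Fin n).sum_comp, Fintype.sum_prod_type,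
        Finset.sum_comm]
      rfl
    exact_mod_cast h3
  obtain ⟨s, hs⟩ : ∃ s : Fin k → Fin n,
      ((univ.filter fun a : Fin n => BT v x (Fin.cons a s)).card : ℝ) ≤ ε' * n := by
    by_contra hcon
    push Not at hcon
    have h3 : ∑ s : Fin k → Fin n, ε' * (n : ℝ) <
        ∑ s : Fin k → Fin n, ((univ.filter fun a : Fin n => BT v x (Fin.cons a s)).card : ℝ) := by
      refine Finset.sum_lt_sum_of_nonempty ?_ fun s _ => hcon s
      exact ⟨fun _ => ⟨0, hn⟩, mem_univ _⟩
    rw [h2, Finset.sum_const, card_univ, Fintype.card_fun, Fintype.card_fin, Fintype.card_fin,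
      nsmul_eq_mul] at h3
    push_cast at h3
    have h4 : (n : ℝ) ^ k * (ε' * n) = ε' * (n : ℝ) ^ (k + 1) := by ring
    linarith
  set U : Finset (Fin n) := univ.filter fun a : Fin n => ¬ BT v x (Fin.cons a s) with hU
  refine ⟨U, ?_, ?_⟩
  · intro a ha b hb
    rw [hU, mem_filter] at ha hb
    have ha' := ha.2
    have hb' := hb.2
    unfold BT at ha' hb'
    push Not at ha' hb'
    set U0 : Finset (Fin n) := univ.image s with hU0
    have hspan : ∀ c : Fin n, ¬ B1 v (Fin.cons c s : Fin (k + 1) → Fin n) 0 →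
        v c ∈ affineSpan ℝ (v '' (↑U0 : Set (Fin n))) := by
      intro c hc
      unfold B1 at hc
      rw [not_not, Fin.cons_zero] at hc
      refine affineSpan_mono ℝ ?_ hc
      rintro _ ⟨j, hj, rfl⟩
      obtain ⟨j', rfl⟩ := Fin.exists_succ_eq.mpr hj
      refine ⟨s j', ?_, by simp⟩
      rw [hU0, Finset.coe_image]
      exact ⟨j', by simp, rfl⟩
    have hKs : ∀ c : Fin n, (∀ i j, KK v x ((Fin.cons c s : Fin (k + 1) → Fin n) i)
        ((Fin.cons c s : Fin (k + 1) → Fin n) j)) → ∀ u ∈ U0, dist (x c) (x u) = dist (v c) (v u) := by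
      intro c hc u hu
      rw [hU0, mem_image] at hu
      obtain ⟨j, _, rfl⟩ := hu
      have h3 := hc 0 j.succ
      rw [Fin.cons_zero, Fin.cons_succ] at h3
      exact h3
    have h0 : IsoOn v x U0 := by
      intro c hc e he
      rw [hU0, mem_image] at hc he
      obtain ⟨i, _, rfl⟩ := hc
      obtain ⟨j, _, rfl⟩ := he
      have h3 := ha'.2 i.succ j.succ
      rw [Fin.cons_succ, Fin.cons_succ] at h3
      exact h3
    have h3 : IsoOn v x (insert a U0) :=
      h n d v x U0 a (↑U0) h0 (fun u hu => ⟨hu, hKs a ha'.2 u hu⟩)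
        (hspan a (fun hB => ha'.1 hB))
    have h4 : IsoOn v x (insert b (insert a U0)) :=
      h n d v x (insert a U0) b (↑U0) h3
        (fun u hu => ⟨Finset.mem_insert_of_mem hu, hKs b hb'.2 u hu⟩)
        (hspan b (fun hB => hb'.1 hB))
    exact h4 a (Finset.mem_insert_of_mem (Finset.mem_insert_self _ _)) b
      (Finset.mem_insert_self _ _)
  · have h3 : (univ.filter fun a : Fin n => BT v x (Fin.cons a s)).card + U.card = n := by
      rw [hU, Finset.card_filter_add_card_filter_not, card_univ, Fintype.card_fin]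
    have h4 : ((univ.filter fun a : Fin n => BT v x (Fin.cons a s)).card : ℝ) + U.card = n := by
      exact_mod_cast h3
    linarith

end Pool.Agent.N814.RC
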